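import Pool.Agent.H73.KG.Stmts2

/-!
# Project KG, module BOD: Lipschitz functions on bodies

`B15_core` is the common part, with an abstract factor `W`.
-/

set_option autoImplicit false
set_option linter.unusedSectionVars false

open MeasureTheory Set Filter Topology
open scoped ContDiff

namespace Pool.Agent.H73.KG

open Pool.Agent.H84 Pool.Agent.H84.Sym Pool.Agent.H84.Sym.P2x Pool.Agent.H19.KL

section

variable {E : Type} [NormedAddCommGroup E] [InnerProductSpace ℝ E]
    [FiniteDimensional ℝ E] [MeasurableSpace E] [BorelSpace E]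

theorem B15_int {W : E → ℝ} {t : ℝ} (h : PP W t) {F : E → ℝ} (hF : GC F) :
    Integrable F (mu W) := by
  obtain ⟨⟨C, hC⟩, _⟩ := h
  exact GC.integrable hF hC

theorem B15_gc_li (e : E) : GC (li e) := by
  refine ⟨by unfold li; fun_prop, ‖e‖, 1, fun x => ?_⟩
  have h1 : |li e x| ≤ ‖e‖ * ‖x‖ := abs_real_inner_le_norm e x
  refine h1.trans (mul_le_mul_of_nonneg_left ?_ (norm_nonneg e))
  have := Real.add_one_le_exp ‖x‖
  rw [one_mul]
  linarith

theorem B15_cv_sum {W : E → ℝ} {t : ℝ} (h : PP W t) {κ : Type} [Fintype κ] (a : κ → ℝ)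
    {F : κ → E → ℝ} (hF : ∀ k, GC (F k)) {V : E → ℝ} (hV : GC V) :
    cv W (fun x => ∑ k, a k * F k x) V = ∑ k, a k * cv W (F k) V := by
  unfold Pool.Agent.H73.KG.cv
  have i1 : ∀ k, Integrable (fun x => a k * (F k x * V x)) (mu W) := fun k =>
    (B15_int h ((hF k).mul hV)).const_mul _
  have i2 : ∀ k, Integrable (fun x => a k * F k x) (mu W) := fun k =>
    (B15_int h (hF k)).const_mul _
  have e1 : (fun x => (∑ k, a k * F k x) * V x) = fun x => ∑ k, a k * (F k x * V x) := by
    funext x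
    rw [Finset.sum_mul]
    exact Finset.sum_congr rfl fun k _ => by ring
  rw [e1, integral_finsetSum _ (fun k _ => i1 k), integral_finsetSum _ (fun k _ => i2 k),
    Finset.sum_mul, ← Finset.sum_sub_distrib]
  refine Finset.sum_congr rfl fun k _ => ?_
  rw [integral_const_mul, integral_const_mul]
  ring

theorem B15_cv_symm (U f g : E → ℝ) : cv U f g = cv U g f := by
  unfold Pool.Agent.H73.KG.cv
  have : (fun x => f x * g x) = fun x => g x * f x := by funext x; ring
  rw [this]
  ring

theorem B15_li_sum {ι : Type} [Fintype ι] (b : OrthonormalBasis ι ℝ E) (w : E) :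
    li w = fun x => ∑ i, (inner ℝ w (b i) : ℝ) * li (b i) x := by
  funext x
  unfold li
  rw [← b.sum_inner_mul_inner w x]

theorem B15_cv_li {W : E → ℝ} {t : ℝ} (h : PP W t) {ι : Type} [Fintype ι]
    (b : OrthonormalBasis ι ℝ E) (w : E) :
    cv W (li w) (li w) = ∑ i, ∑ k, (inner ℝ w (b i) : ℝ) * (inner ℝ w (b k) : ℝ) *
      cv W (li (b i)) (li (b k)) := by
  conv_lhs => rw [B15_li_sum b w]
  have g1 : GC (fun x => ∑ i, (inner ℝ w (b i) : ℝ) * li (b i) x) := by
    rw [← B15_li_sum b w]; exact B15_gc_li w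
  rw [B15_cv_sum h _ (fun k => B15_gc_li (b k)) g1]
  refine Finset.sum_congr rfl fun i _ => ?_
  rw [B15_cv_symm, B15_cv_sum h _ (fun k => B15_gc_li (b k)) (B15_gc_li (b i)), Finset.mul_sum]
  refine Finset.sum_congr rfl fun k _ => ?_
  rw [B15_cv_symm]
  ring

theorem B15_gc_lip {f : E → ℝ} (hf : ContDiff ℝ 1 f) {M : ℝ} (hM : ∀ x, ‖fderiv ℝ f x‖ ≤ M) :
    GC f := by
  have hM0 : 0 ≤ M := (norm_nonneg _).trans (hM 0)
  refine ⟨hf.continuous, |f 0| + M, 1, fun x => ?_⟩
  have h1 : ‖f x - f 0‖ ≤ M * ‖x - 0‖ :=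
    Convex.norm_image_sub_le_of_norm_fderiv_le (𝕜 := ℝ) (s := univ)
      (fun x _ => (hf.differentiable (by simp)).differentiableAt) (fun x _ => hM x)
      convex_univ (mem_univ _) (mem_univ _)
  rw [sub_zero, Real.norm_eq_abs] at h1
  have h2 : |f x| ≤ |f 0| + M * ‖x‖ := by
    have := abs_sub_abs_le_abs_sub (f x) (f 0)
    linarith
  have h3 := Real.add_one_le_exp ‖x‖
  have h4 : (1:ℝ) ≤ Real.exp ‖x‖ := by linarith [norm_nonneg x]
  rw [one_mul]
  have h5 : |f 0| ≤ |f 0| * Real.exp ‖x‖ := le_mul_of_one_le_right (abs_nonneg _) h4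
  have h6 : M * ‖x‖ ≤ M * Real.exp ‖x‖ := mul_le_mul_of_nonneg_left (by linarith) hM0
  rw [add_mul]
  linarith

theorem B15_core (hLEX : LEXStmt E) {K : Set E} {R s W : ℝ} (hK : CB K R)
    (H : ∀ (U : E → ℝ) (t a M : ℝ), PP U t → 0 < a → CovLe U a → 0 ≤ M →
      ∀ f : E → ℝ, ContDiff ℝ 1 f → (∀ x, ‖fderiv ℝ f x‖ ≤ M) → cv U f f ≤ a * M ^ 2 * W)
    (hs : 0 < s) (hW : 0 ≤ W)
    (h2 : ∀ v : E, ∫ x in K, (inner ℝ v x) ^ 2 ≤ s ^ 2 * ‖v‖ ^ 2 * volume.real K) :
    PL K (s * Real.sqrt W) := by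
  obtain ⟨U, hU1, hU2, -, hlim⟩ := approx hK
  have hvol : 0 < volume.real K := by
    rw [Measure.real]
    exact ENNReal.toReal_pos hK.vol0 hK.lt_top.ne
  have hPP : ∀ j, ∃ t, PP (U j) t := fun j => by
    obtain ⟨t, C, hC⟩ := hU1 j
    exact ⟨t, ⟨C, hC⟩, hU2 j⟩
  have hint : ∀ F : E → ℝ, Continuous F → IntegrableOn F K := fun F hF =>
    (hF.continuousOn.integrableOn_compact (isCompact_closedBall (0:E) R)).mono_set hK.sub
  set EK : (E → ℝ) → ℝ := fun F => (∫ x in K, F x) / volume.real K with hEK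
  have hEKm : ∀ F, ∫ x in K, F x = EK F * volume.real K := fun F => by
    simp only [hEK]
    rw [div_mul_cancel₀ _ hvol.ne']
  have hl : ∀ F : E → ℝ, GC F → Tendsto (fun j => ∫ x, F x ∂(mu (U j))) atTop (𝓝 (EK F)) :=
    fun F hF => hlim F hF.1 hF.2
  have hcv : ∀ F G : E → ℝ, GC F → GC G → Tendsto (fun j => cv (U j) F G) atTop
      (𝓝 (EK (fun x => F x * G x) - EK F * EK G)) := fun F G hF hG =>
    (hl _ (hF.mul hG)).sub ((hl F hF).mul (hl G hG))
  -- the covariance
  have hcov : ∀ ε : ℝ, 0 < ε → ∀ᶠ j in atTop, CovLe (U j) (s ^ 2 + ε) := by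
    intro ε hε
    set b := stdOrthonormalBasis ℝ E with hb
    set n := Module.finrank ℝ E with hn
    set V : Fin n → Fin n → ℝ := fun i k => EK (fun x => li (b i) x * li (b k) x) -
      EK (li (b i)) * EK (li (b k)) with hV
    set η : ℝ := ε / (n + 1) with hη
    have hη0 : 0 < η := by positivity
    have hev : ∀ᶠ j in atTop, ∀ i k, |cv (U j) (li (b i)) (li (b k)) - V i k| < η := by
      rw [eventually_all]
      intro i
      rw [eventually_all]
      intro k
      have h1 := hcv _ _ (B15_gc_li (b i)) (B15_gc_li (b k))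
      have h3 := (Metric.tendsto_nhds.1 h1) η hη0
      filter_upwards [h3] with j hj
      rwa [Real.dist_eq] at hj
    have hVw : ∀ w : E, ∑ i, ∑ k, (inner ℝ w (b i) : ℝ) * (inner ℝ w (b k) : ℝ) * V i k ≤
        s ^ 2 * ‖w‖ ^ 2 := by
      intro w
      have t1 := hcv _ _ (B15_gc_li w) (B15_gc_li w)
      have t2 : Tendsto (fun j => cv (U j) (li w) (li w)) atTop
          (𝓝 (∑ i, ∑ k, (inner ℝ w (b i) : ℝ) * (inner ℝ w (b k) : ℝ) * V i k)) := by
        have e1 : (fun j => cv (U j) (li w) (li w)) = fun j =>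
            ∑ i, ∑ k, (inner ℝ w (b i) : ℝ) * (inner ℝ w (b k) : ℝ) *
              cv (U j) (li (b i)) (li (b k)) := by
          funext j
          obtain ⟨t, ht⟩ := hPP j
          exact B15_cv_li ht b w
        rw [e1]
        refine tendsto_finsetSum _ fun i _ => tendsto_finsetSum _ fun k _ => ?_
        exact (hcv _ _ (B15_gc_li (b i)) (B15_gc_li (b k))).const_mul _
      rw [tendsto_nhds_unique t2 t1]
      have e2 : EK (fun x => li w x * li w x) ≤ s ^ 2 * ‖w‖ ^ 2 := by
        simp only [hEK]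
        rw [div_le_iff₀ hvol]
        have := h2 w
        have e3 : (fun x => li w x * li w x) = fun x => (inner ℝ w x : ℝ) ^ 2 := by
          funext x; unfold li; ring
        rw [e3]
        exact this
      nlinarith [mul_self_nonneg (EK (li w))]
    filter_upwards [hev] with j hj w
    obtain ⟨t, ht⟩ := hPP j
    rw [B15_cv_li ht b w]
    have e4 : ∑ i, ∑ k, (inner ℝ w (b i) : ℝ) * (inner ℝ w (b k) : ℝ) *
        cv (U j) (li (b i)) (li (b k)) ≤
        ∑ i, ∑ k, ((inner ℝ w (b i) : ℝ) * (inner ℝ w (b k) : ℝ) * V i k +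
          η * (((inner ℝ w (b i) : ℝ) ^ 2 + (inner ℝ w (b k) : ℝ) ^ 2) / 2)) := by
      refine Finset.sum_le_sum fun i _ => Finset.sum_le_sum fun k _ => ?_
      have h5 := (hj i k).le
      set p : ℝ := inner ℝ w (b i)
      set q : ℝ := inner ℝ w (b k)
      set c := cv (U j) (li (b i)) (li (b k))
      have h6 : p * q * (c - V i k) ≤ |p * q| * η := by
        calc p * q * (c - V i k) ≤ |p * q * (c - V i k)| := le_abs_self _
          _ = |p * q| * |c - V i k| := abs_mul _ _
          _ ≤ |p * q| * η := mul_le_mul_of_nonneg_left h5 (abs_nonneg _)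
      have h7 : |p * q| ≤ (p ^ 2 + q ^ 2) / 2 := by
        rw [abs_le]
        constructor <;> nlinarith [sq_nonneg (p + q), sq_nonneg (p - q)]
      nlinarith [mul_le_mul_of_nonneg_right h7 hη0.le]
    refine e4.trans ?_
    simp only [Finset.sum_add_distrib]
    have hsq : ∑ i, (inner ℝ w (b i) : ℝ) ^ 2 = ‖w‖ ^ 2 := by
      have := b.sum_sq_norm_inner_left w
      simp only [Real.norm_eq_abs, sq_abs] at this
      exact this
    have e5 : ∑ i : Fin n, ∑ k : Fin n, η * (((inner ℝ w (b i) : ℝ) ^ 2 + (inner ℝ w (b k) : ℝ) ^ 2) / 2) =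
        η * n * ‖w‖ ^ 2 := by
      have : ∀ i : Fin n, ∑ k : Fin n, η * (((inner ℝ w (b i) : ℝ) ^ 2 + (inner ℝ w (b k) : ℝ) ^ 2) / 2) =
          η / 2 * (n * (inner ℝ w (b i) : ℝ) ^ 2 + ‖w‖ ^ 2) := by
        intro i
        rw [← hsq, ← Finset.mul_sum, ← Finset.sum_div, Finset.sum_add_distrib, Finset.sum_const,
          Finset.card_univ, Fintype.card_fin, nsmul_eq_mul]
        ring
      simp only [this]
      rw [← Finset.mul_sum, Finset.sum_add_distrib, ← Finset.mul_sum, hsq, Finset.sum_const,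
          Finset.card_univ, Fintype.card_fin, nsmul_eq_mul]
      ring
    rw [e5]
    have h8 : η * n ≤ ε := by
      rw [hη, div_mul_eq_mul_div, div_le_iff₀ (by positivity)]
      nlinarith
    have h9 := hVw w
    nlinarith [mul_le_mul_of_nonneg_right h8 (sq_nonneg ‖w‖)]
  have hne : K.Nonempty := by
    rw [nonempty_iff_ne_empty]
    rintro rfl
    exact hK.vol0 measure_empty
  intro g hg M hM0 hM
  refine ⟨EK g, ?_⟩
  have key : ∀ δ : ℝ, 0 < δ → ∫ x in K, |g x - EK g| ≤
      (Real.sqrt ((s ^ 2 + δ) * M ^ 2 * W + δ) + 2 * δ) * volume.real K := by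
    intro δ hδ
    obtain ⟨f, hf, hfM, hfg⟩ := hLEX K g M δ hK.conv hne hg hM0 hM hδ
    have gf : GC f := B15_gc_lip hf hfM
    have hvar : EK (fun x => f x * f x) - EK f * EK f ≤ (s ^ 2 + δ) * M ^ 2 * W := by
      refine le_of_tendsto (hcv f f gf gf) ?_
      filter_upwards [hcov δ hδ] with j hj
      obtain ⟨t, ht⟩ := hPP j
      exact H (U j) t _ M ht (by positivity) hj hM0 f hf hfM
    set σ := Real.sqrt ((s ^ 2 + δ) * M ^ 2 * W + δ) with hσ
    have hσ2 : σ ^ 2 = (s ^ 2 + δ) * M ^ 2 * W + δ := Real.sq_sqrt (by positivity)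
    have hσ0 : 0 < σ := Real.sqrt_pos.2 (by positivity)
    have i1 : IntegrableOn (fun x => f x) K := hint _ hf.continuous
    have i2 : IntegrableOn (fun x => |f x - EK f|) K :=
      hint _ (hf.continuous.sub continuous_const).abs
    have h1 : ∫ x in K, |f x - EK f| ≤ σ * volume.real K := by
      have h3 : ∫ x in K, |f x - EK f| * σ ≤ ∫ x in K, ((f x * f x - 2 * EK f * f x +
          (EK f ^ 2 + σ ^ 2)) / 2) := by
        refine setIntegral_mono_on (hint _ ((hf.continuous.sub continuous_const).abs.mul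
          continuous_const)) (hint _ (by have := hf.continuous; fun_prop)) hK.meas fun x _ => ?_
        have := sq_nonneg (|f x - EK f| - σ)
        have h4 := sq_abs (f x - EK f)
        nlinarith
      have h5 : ∫ x in K, ((f x * f x - 2 * EK f * f x + (EK f ^ 2 + σ ^ 2)) / 2) =
          ((EK (fun x => f x * f x) - EK f * EK f + σ ^ 2) / 2) * volume.real K := by
        rw [integral_div, integral_add, integral_sub, integral_const_mul, setIntegral_const,
          hEKm (fun x => f x * f x), hEKm f, smul_eq_mul]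
        · ring
        · exact hint _ (hf.continuous.mul hf.continuous)
        · exact hint _ (continuous_const.mul hf.continuous)
        · exact hint _ (by have := hf.continuous; fun_prop)
        · exact hint _ continuous_const
      rw [h5, integral_mul_const] at h3
      have h6 : (∫ x in K, |f x - EK f|) * σ ≤ (σ * volume.real K) * σ := by
        refine h3.trans ?_
        have : (EK (fun x => f x * f x) - EK f * EK f + σ ^ 2) / 2 ≤ σ * σ := by
          nlinarith
        calc _ ≤ σ * σ * volume.real K := mul_le_mul_of_nonneg_right this hvol.le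
          _ = _ := by ring
      exact le_of_mul_le_mul_right h6 hσ0
    have hE : |EK f - EK g| ≤ δ := by
      have e1 : EK f - EK g = (∫ x in K, (f x - g x)) / volume.real K := by
        simp only [hEK]
        rw [integral_sub i1 (hint _ hg.continuous), sub_div]
      rw [e1, abs_div, abs_of_pos hvol, div_le_iff₀ hvol]
      have e2 : ‖∫ x in K, (f x - g x)‖ ≤ δ * volume.real K :=
        norm_setIntegral_le_of_norm_le_const hK.lt_top fun x hx => by
          rw [Real.norm_eq_abs]; exact hfg x hx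
      rwa [Real.norm_eq_abs] at e2
    have h7 : ∫ x in K, |g x - EK g| ≤ ∫ x in K, (|f x - EK f| + 2 * δ) := by
      refine setIntegral_mono_on (hint _ (hg.continuous.sub continuous_const).abs)
        (hint _ ((hf.continuous.sub continuous_const).abs.add continuous_const)) hK.meas
        fun x hx => ?_
      have a1 := hfg x hx
      have a2 : g x - EK g = -(f x - g x) + (f x - EK f) + (EK f - EK g) := by ring
      rw [a2]
      have a3 := abs_add_le (-(f x - g x) + (f x - EK f)) (EK f - EK g)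
      have a4 := abs_add_le (-(f x - g x)) (f x - EK f)
      rw [abs_neg] at a4
      linarith
    refine h7.trans ?_
    rw [integral_add i2 (hint _ continuous_const), setIntegral_const, smul_eq_mul]
    nlinarith
  -- the limit
  have hlim2 : Tendsto (fun m : ℕ => (Real.sqrt ((s ^ 2 + 1 / ((m:ℝ) + 1)) * M ^ 2 * W +
      1 / ((m:ℝ) + 1)) + 2 * (1 / ((m:ℝ) + 1))) * volume.real K) atTop
      (𝓝 ((Real.sqrt ((s ^ 2 + 0) * M ^ 2 * W + 0) + 2 * 0) * volume.real K)) := by
    have h4 : Tendsto (fun m : ℕ => 1 / ((m:ℝ) + 1)) atTop (𝓝 0) :=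
      tendsto_one_div_add_atTop_nhds_zero_nat
    refine Tendsto.mul_const _ (Tendsto.add ?_ (h4.const_mul 2))
    exact (Real.continuous_sqrt.tendsto _).comp
      ((((h4.const_add _).mul_const _).mul_const _).add h4)
  have h10 := ge_of_tendsto' hlim2 fun m => key (1 / ((m:ℝ) + 1)) (by positivity)
  refine h10.trans (le_of_eq ?_)
  rw [add_zero, add_zero, mul_zero, add_zero, show s ^ 2 * M ^ 2 * W = (s * M) ^ 2 * W by ring,
    Real.sqrt_mul (sq_nonneg _), Real.sqrt_sq (by positivity)]
  ring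

end

/-- BOD of project KG -/
theorem bod_thm15 (hSCL : SCLStmt)
    (hLEX : ∀ (E : Type) [NormedAddCommGroup E] [InnerProductSpace ℝ E] [FiniteDimensional ℝ E]
      [MeasurableSpace E] [BorelSpace E], LEXStmt E) : BODStmt := by
  obtain ⟨C, hC, H⟩ := hSCL
  refine ⟨C, hC, ?_⟩
  intro E _ _ _ _ _ K R s hK hs h2
  have h1 : (1:ℝ) < L1 (Module.finrank ℝ E) := by
    unfold L1
    rw [Real.lt_log_iff_exp_lt (by positivity)]
    have h := Real.exp_one_lt_d9
    have : (0:ℝ) ≤ (Module.finrank ℝ E : ℝ) := Nat.cast_nonneg _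
    linarith
  have h3 : 0 < L2 (Module.finrank ℝ E) := Real.log_pos h1
  set X := L1 (Module.finrank ℝ E) * L2 (Module.finrank ℝ E) with hX
  have hX0 : 0 < X := by positivity
  have core := B15_core (hLEX E) (W := C * Real.sqrt X) hK (fun U t a M hU ha hc hM f hf hfM => by
    have := H E U t a M hU ha hc hM f hf hfM
    refine this.trans (le_of_eq ?_)
    ring) hs (by positivity) h2
  intro g hg M hM0 hM
  obtain ⟨c, hc⟩ := core g hg M hM0 hM
  refine ⟨c, hc.trans ?_⟩
  have h4 : Real.sqrt (C * Real.sqrt X) ≤ C * X ^ ((1:ℝ) / 4) := by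
    rw [Real.sqrt_mul (by linarith)]
    have h5 : Real.sqrt (Real.sqrt X) = X ^ ((1:ℝ) / 4) := by
      rw [Real.sqrt_eq_rpow, Real.sqrt_eq_rpow, ← Real.rpow_mul hX0.le]
      norm_num
    rw [h5]
    refine mul_le_mul_of_nonneg_right ?_ (by positivity)
    rw [Real.sqrt_le_left (by linarith)]
    nlinarith
  have h6 : s * Real.sqrt (C * Real.sqrt X) ≤ C * s * X ^ ((1:ℝ) / 4) := by
    calc s * Real.sqrt (C * Real.sqrt X) ≤ s * (C * X ^ ((1:ℝ) / 4)) :=
          mul_le_mul_of_nonneg_left h4 hs.le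
      _ = _ := by ring
  exact mul_le_mul_of_nonneg_right (mul_le_mul_of_nonneg_right h6 hM0) measureReal_nonneg

end Pool.Agent.H73.KG
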