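import Pool.Agent.H73.KG.Stmts2
import Mathlib.Analysis.InnerProductSpace.Spectrum

/-!
# Project KG, module SPC: coordinates in which the third moment matrix is diagonal
-/

set_option autoImplicit false
set_option linter.unusedSectionVars false

open MeasureTheory Set Filter Topology
open scoped ContDiff

namespace Pool.Agent.H73.KG

open Pool.Agent.H84 Pool.Agent.H84.Sym Pool.Agent.H84.Sym.P2x Pool.Agent.H19.KL

section

variable {E : Type} [NormedAddCommGroup E] [InnerProductSpace ℝ E]
    [FiniteDimensional ℝ E] [MeasurableSpace E] [BorelSpace E]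

theorem SPC_li (e : E) : GC (li e) := by
  refine ⟨continuous_const.inner continuous_id, ?_⟩
  refine Gr.of_le (Gr.mul (Gr.nrm (H := E)) (Gr.of_bdd (H := E) (F := fun _ => ‖e‖) (A := ‖e‖)
    fun _ => by simp)) fun x => ?_
  rw [abs_of_nonneg (mul_nonneg (norm_nonneg x) (norm_nonneg e)), mul_comm]
  exact abs_real_inner_le_norm _ _

theorem SPC_li_add (v w x : E) : li (v + w) x = li v x + li w x := inner_add_left _ _ _

theorem SPC_li_smul (c : ℝ) (v x : E) : li (c • v) x = c * li v x := real_inner_smul_left _ _ _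

theorem SPC_mn_add {U : E → ℝ} {t C : ℝ} (hU : Pot U t C) (v w : E) :
    mn U (v + w) = mn U v + mn U w := by
  unfold mn
  rw [← integral_add ((SPC_li v).integrable hU) ((SPC_li w).integrable hU)]
  exact integral_congr_ae (Filter.Eventually.of_forall fun x => SPC_li_add v w x)

theorem SPC_mn_smul (U : E → ℝ) (c : ℝ) (v : E) : mn U (c • v) = c * mn U v := by
  unfold mn
  rw [← integral_const_mul]
  exact integral_congr_ae (Filter.Eventually.of_forall fun x => SPC_li_smul c v x)

theorem SPC_cen (U : E → ℝ) (v : E) : GC (fun x => li v x - mn U v) :=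
  (SPC_li v).sub (GC.const _)

theorem SPC_add {U : E → ℝ} {t C : ℝ} (hU : Pot U t C) (u v w w' : E) :
    t3 U u v (w + w') = t3 U u v w + t3 U u v w' := by
  unfold t3
  rw [← integral_add ((((SPC_cen U u).mul (SPC_cen U v)).mul (SPC_cen U w)).integrable hU)
    ((((SPC_cen U u).mul (SPC_cen U v)).mul (SPC_cen U w')).integrable hU)]
  refine integral_congr_ae (Filter.Eventually.of_forall fun x => ?_)
  simp only
  rw [SPC_li_add, SPC_mn_add hU]
  ring

theorem SPC_smul (U : E → ℝ) (u v w : E) (c : ℝ) :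
    t3 U u v (c • w) = c * t3 U u v w := by
  unfold t3
  rw [← integral_const_mul]
  refine integral_congr_ae (Filter.Eventually.of_forall fun x => ?_)
  simp only
  rw [SPC_li_smul, SPC_mn_smul]
  ring

theorem SPC_symm (U : E → ℝ) (u v w : E) : t3 U u v w = t3 U u w v := by
  unfold t3
  refine integral_congr_ae (Filter.Eventually.of_forall fun x => ?_)
  simp only
  ring

/-- the bilinear form of the third moments -/
noncomputable def SPC_B {U : E → ℝ} {t C : ℝ} (hU : Pot U t C) (θ : E) : E →ₗ[ℝ] E →ₗ[ℝ] ℝ :=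
  LinearMap.mk₂ ℝ (t3 U θ)
    (fun v v' w => by rw [SPC_symm, SPC_add hU, SPC_symm U θ w v, SPC_symm U θ w v'])
    (fun c v w => by rw [SPC_symm, SPC_smul, SPC_symm U θ w v]; rfl)
    (fun v w w' => SPC_add hU θ v w w')
    (fun c v w => SPC_smul U θ v w c)

theorem SPC_B_apply {U : E → ℝ} {t C : ℝ} (hU : Pot U t C) (θ v w : E) :
    SPC_B hU θ v w = t3 U θ v w := rfl

end

section lin

variable {E : Type} [NormedAddCommGroup E] [InnerProductSpace ℝ E] [FiniteDimensional ℝ E]

theorem SPC_pars {ι : Type} [Fintype ι] (b : OrthonormalBasis ι ℝ E) (f : E →ₗ[ℝ] ℝ) :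
    ∑ i, (f (b i)) ^ 2 = ‖(InnerProductSpace.toDual ℝ E).symm f.toContinuousLinearMap‖ ^ 2 := by
  set z := (InnerProductSpace.toDual ℝ E).symm f.toContinuousLinearMap with hz
  have h : ∀ w : E, f w = inner ℝ z w := by
    intro w
    rw [hz, InnerProductSpace.toDual_symm_apply]
    rfl
  have h2 := b.sum_sq_norm_inner_left z
  rw [← h2]
  refine Finset.sum_congr rfl fun i _ => ?_
  rw [h, Real.norm_eq_abs, sq_abs, real_inner_comm]

theorem SPC_hs {ι κ : Type} [Fintype ι] [Fintype κ] (b : OrthonormalBasis ι ℝ E)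
    (c : OrthonormalBasis κ ℝ E) (B : E →ₗ[ℝ] E →ₗ[ℝ] ℝ) :
    ∑ i, ∑ j, (B (b i) (b j)) ^ 2 = ∑ k, ∑ l, (B (c k) (c l)) ^ 2 := by
  have h1 : ∑ i, ∑ j, (B (b i) (b j)) ^ 2 = ∑ i, ∑ l, (B (b i) (c l)) ^ 2 := by
    refine Finset.sum_congr rfl fun i _ => ?_
    rw [SPC_pars b (B (b i)), SPC_pars c (B (b i))]
  have h2 : ∑ l, ∑ i, (B (b i) (c l)) ^ 2 = ∑ l, ∑ k, (B (c k) (c l)) ^ 2 := by
    refine Finset.sum_congr rfl fun l _ => ?_
    exact (SPC_pars b (B.flip (c l))).trans (SPC_pars c (B.flip (c l))).symm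
  rw [h1, Finset.sum_comm, h2, Finset.sum_comm]

/-- a symmetric bilinear form on a space of dimension `n` is diagonal in some orthonormal basis,
with decreasing absolute values -/
theorem SPC_diag (n : ℕ) (hn : Module.finrank ℝ E = n) (B : E →ₗ[ℝ] E →ₗ[ℝ] ℝ)
    (hB : ∀ v w, B v w = B w v) :
    ∃ (c : OrthonormalBasis (Fin n) ℝ E) (m : Fin n → ℝ), (∀ i j, i ≤ j → |m j| ≤ |m i|) ∧
      ∀ i j, B (c i) (c j) = if i = j then m i else 0 := by
  classical
  -- the operator
  set T : E →ₗ[ℝ] E :=
    { toFun := fun v => (InnerProductSpace.toDual ℝ E).symm (B v).toContinuousLinearMap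
      map_add' := by
        intro v w
        rw [map_add B, map_add, map_add]
      map_smul' := by
        intro a v
        rw [map_smul B, map_smul]
        simp } with hT
  have hTi : ∀ v w, inner ℝ (T v) w = B v w := by
    intro v w
    show inner ℝ ((InnerProductSpace.toDual ℝ E).symm (B v).toContinuousLinearMap) w = B v w
    rw [InnerProductSpace.toDual_symm_apply]
    rfl
  have hTs : T.IsSymmetric := by
    intro v w
    rw [hTi, hB, ← hTi, real_inner_comm]
  set c0 := hTs.eigenvectorBasis hn with hc0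
  set m0 := hTs.eigenvalues hn with hm0
  have hB0 : ∀ i j, B (c0 i) (c0 j) = if i = j then m0 i else 0 := by
    intro i j
    rw [← hTi, hc0, hTs.apply_eigenvectorBasis hn i, real_inner_smul_left,
      (orthonormal_iff_ite.mp (hTs.eigenvectorBasis hn).orthonormal) i j]
    split_ifs <;> simp [hm0]
  set σ : Equiv.Perm (Fin n) := Tuple.sort (fun i => -|m0 i|) with hσ
  refine ⟨c0.reindex σ.symm, m0 ∘ σ, ?_, ?_⟩
  · intro i j hij
    have h := Tuple.monotone_sort (fun i => -|m0 i|) hij
    simp only [Function.comp_apply] at h ⊢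
    rw [← hσ] at h
    linarith
  · intro i j
    rw [OrthonormalBasis.reindex_apply, OrthonormalBasis.reindex_apply, Equiv.symm_symm, hB0]
    simp [σ.injective.eq_iff]

end lin

theorem spc_thm (E : Type) [NormedAddCommGroup E] [InnerProductSpace ℝ E]
    [FiniteDimensional ℝ E] [MeasurableSpace E] [BorelSpace E] : SPCStmt E := by
  classical
  rintro U t ⟨⟨C, hU⟩, _⟩ θ hθ
  have hθ0 : θ ≠ 0 := by
    intro h
    rw [h, norm_zero] at hθ
    exact zero_ne_one hθ
  set V : Submodule ℝ E := (ℝ ∙ θ)ᗮ with hV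
  set N := Module.finrank ℝ E - 1 with hN
  have hfr : Module.finrank ℝ V = N := by
    have h1 := Submodule.finrank_add_finrank_orthogonal (ℝ ∙ θ)
    rw [finrank_span_singleton hθ0] at h1
    rw [hN, ← h1, Nat.add_sub_cancel_left]
  have hfr1 : Module.finrank ℝ E = N + 1 := by
    have h1 := Submodule.finrank_add_finrank_orthogonal (ℝ ∙ θ)
    rw [finrank_span_singleton hθ0] at h1
    omega
  set B := SPC_B hU θ with hB
  obtain ⟨c, m, hmono, hc⟩ := SPC_diag N hfr
    ((B.compl₂ V.subtype).comp V.subtype) (by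
      intro v w
      exact SPC_symm U θ v w)
  have hc' : ∀ i j, t3 U θ (c i : E) (c j : E) = if i = j then m i else 0 := fun i j => hc i j
  have hco : ∀ i j, inner ℝ (c i : E) (c j : E) = if i = j then (1:ℝ) else 0 := by
    intro i j
    have h := (orthonormal_iff_ite.mp c.orthonormal) i j
    simpa using h
  have hθc : ∀ i, inner ℝ θ (c i : E) = (0:ℝ) := by
    intro i
    exact Submodule.mem_orthogonal_singleton_iff_inner_right.mp (c i).2
  set e : ℕ → E := fun i => if h : i < N then (c ⟨i, h⟩ : E) else 0 with he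
  set m' : ℕ → ℝ := fun i => if h : i < N then m ⟨i, h⟩ else 0 with hm'
  have heN : ∀ i (h : i < N), e i = (c ⟨i, h⟩ : E) := fun i h => by simp [he, h]
  have hmN : ∀ i (h : i < N), m' i = m ⟨i, h⟩ := fun i h => by simp [hm', h]
  refine ⟨e, m', ?_, ?_, ?_, ?_, ?_⟩
  · intro i hi j hj
    rw [heN i hi, heN j hj, hmN i hi, hco, hc']
    simp
  · intro i hi
    rw [heN i hi]
    exact hθc _
  · intro i hi
    simp only [hm']
    rw [dif_neg (by omega)]
  · intro i j hij
    by_cases hj : j < N
    · have hi : i < N := lt_of_le_of_lt hij hj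
      rw [hmN i hi, hmN j hj]
      exact hmono _ _ hij
    · have : m' j = 0 := by
        simp only [hm']
        rw [dif_neg hj]
      rw [this, abs_zero]
      exact abs_nonneg _
  · intro ι _ b
    -- the basis consisting of `θ` and the `c i`
    set f : Option (Fin N) → E := fun o => o.elim θ (fun i => (c i : E)) with hf
    have hfo : Orthonormal ℝ f := by
      rw [orthonormal_iff_ite]
      intro i j
      rcases i with _ | i <;> rcases j with _ | j
      · simp [hf, hθ]
      · simp [hf, hθc]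
      · have h := hθc i
        rw [real_inner_comm] at h
        simp [hf, h]
      · simp only [hf, Option.elim_some, Option.some.injEq]
        exact hco i j
    have hcard : Fintype.card (Option (Fin N)) = Module.finrank ℝ E := by
      rw [Fintype.card_option, Fintype.card_fin, hfr1]
    set fb0 := basisOfOrthonormalOfCardEqFinrank hfo hcard with hfb0
    have hcoe : ⇑fb0 = f := coe_basisOfOrthonormalOfCardEqFinrank hfo hcard
    set F : OrthonormalBasis (Option (Fin N)) ℝ E :=
      fb0.toOrthonormalBasis (by rw [hcoe]; exact hfo) with hF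
    have hFa : ∀ o, F o = f o := by
      intro o
      rw [hF, Module.Basis.coe_toOrthonormalBasis, hcoe]
    have h1 := SPC_hs b F B
    have h2 : ∑ i, ∑ j, (t3 U θ (b i) (b j)) ^ 2 = ∑ i, ∑ j, (B (b i) (b j)) ^ 2 := rfl
    rw [h2, h1]
    simp only [hFa, Fintype.sum_option]
    have a0 : ∀ i, f (some i) = (c i : E) := fun i => rfl
    have a1 : f none = θ := rfl
    simp only [a0, a1]
    have b1 : ∀ i j, B (c i : E) (c j : E) = if i = j then m i else 0 := hc'
    have b2 : ∀ i, B (c i : E) θ = B θ (c i : E) := fun i => SPC_symm U θ _ _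
    have b3 : ∀ i : Fin N, ∑ j, (B (c i : E) (c j : E)) ^ 2 = m i ^ 2 := by
      intro i
      rw [Finset.sum_eq_single i]
      · rw [b1, if_pos rfl]
      · intro j _ hj
        rw [b1, if_neg hj.symm]
        ring
      · intro h
        exact absurd (Finset.mem_univ i) h
    simp only [b2, b3, Finset.sum_add_distrib]
    have s1 : ∑ i ∈ Finset.range N, (m' i) ^ 2 = ∑ i : Fin N, m i ^ 2 := by
      rw [Finset.sum_range]
      refine Finset.sum_congr rfl fun i _ => ?_
      rw [hmN i i.2]
    have s2 : ∑ i ∈ Finset.range N, (t3 U θ θ (e i)) ^ 2 = ∑ i : Fin N, (B θ (c i : E)) ^ 2 := by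
      rw [Finset.sum_range]
      refine Finset.sum_congr rfl fun i _ => ?_
      rw [heN i i.2]
      rfl
    rw [s1, s2]
    have s3 : B θ θ = t3 U θ θ θ := rfl
    rw [s3]
    ring

end Pool.Agent.H73.KG
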